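import Mathlib

/-!
The combinatorial core: there is no pair of 3-uniform 3-regular set systems `a, b : ι → Finset κ`
(10 members, 10 points) with `#{i | z ∈ a i, w ∈ b i} = 1 - δ z w` such that any two members meet in
exactly one of the two systems.
-/

set_option autoImplicit false
set_option linter.unusedSectionVars false

namespace Pool.Agent.R456.Semi

open Finset

section Core
variable {ι κ : Type} [Fintype ι] [DecidableEq ι] [Fintype κ] [DecidableEq κ]

/-- number of ordered pairs of distinct members meeting in exactly two points -/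
def dbl (a : ι → Finset κ) : ℕ :=
  ((univ : Finset (ι × ι)).filter (fun x => x.1 ≠ x.2 ∧ (a x.1 ∩ a x.2).card = 2)).card

/-- the dual system -/
def dual (a : ι → Finset κ) (z : κ) : Finset ι := univ.filter (fun i => z ∈ a i)

theorem mem_dual (a : ι → Finset κ) (z : κ) (i : ι) : i ∈ dual a z ↔ z ∈ a i := by
  simp [dual]

structure Sys (a b : ι → Finset κ) : Prop where
  ca : ∀ i, (a i).card = 3
  cb : ∀ i, (b i).card = 3
  da : ∀ z, (dual a z).card = 3
  db : ∀ z, (dual b z).card = 3
  K2 : ∀ z w, (dual a z ∩ dual b w).card = if z = w then 0 else 1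
  K2' : ∀ i j, (a i ∩ b j).card = if i = j then 0 else 1

theorem Sys.symm {a b : ι → Finset κ} (h : Sys a b) : Sys b a where
  ca := h.cb
  cb := h.ca
  da := h.db
  db := h.da
  K2 z w := by rw [inter_comm, h.K2]; simp only [eq_comm]
  K2' z w := by rw [inter_comm, h.K2']; simp only [eq_comm]

theorem Sys.inter_le {a b : ι → Finset κ} (h : Sys a b) {x y : ι} (hxy : x ≠ y) :
    (b x ∩ b y).card ≤ 2 := by
  by_contra hc
  push Not at hc
  have h1 : b x ∩ b y = b x := eq_of_subset_of_card_le inter_subset_left (by rw [h.cb]; omega)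
  have h2 : b x ∩ b y = b y := eq_of_subset_of_card_le inter_subset_right (by rw [h.cb]; omega)
  have h3 : b x = b y := h1.symm.trans h2
  have h4 := h.K2' x x
  have h5 := h.K2' x y
  rw [if_pos rfl, h3] at h4
  rw [if_neg hxy] at h5
  omega

theorem Sys.dual_inter_le {a b : ι → Finset κ} (h : Sys a b) {x y : κ} (hxy : x ≠ y) :
    (dual b x ∩ dual b y).card ≤ 2 := by
  by_contra hc
  push Not at hc
  have h1 : dual b x ∩ dual b y = dual b x :=
    eq_of_subset_of_card_le inter_subset_left (by rw [h.db]; omega)
  have h2 : dual b x ∩ dual b y = dual b y :=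
    eq_of_subset_of_card_le inter_subset_right (by rw [h.db]; omega)
  have h3 : dual b x = dual b y := h1.symm.trans h2
  have h4 := h.K2 x x
  have h5 := h.K2 x y
  rw [if_pos rfl, h3] at h4
  rw [if_neg hxy] at h5
  omega

/-- decomposition of `a u` when `a u \ a v = {z}` -/
theorem split_card {u v : ι} {a : ι → Finset κ} {z : κ} (hz : a u \ a v = {z}) (s : Finset κ) :
    (a u ∩ s).card = ((a u ∩ a v) ∩ s).card + if z ∈ s then 1 else 0 := by
  have h1 : a u ∩ s = ((a u ∩ a v) ∩ s) ∪ ((a u \ a v) ∩ s) := by
    ext x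
    simp only [mem_inter, mem_union, mem_sdiff]
    tauto
  have h2 : Disjoint ((a u ∩ a v) ∩ s) ((a u \ a v) ∩ s) := by
    rw [Finset.disjoint_left]
    intro x hx hx'
    simp only [mem_inter, mem_sdiff] at hx hx'
    tauto
  rw [h1, card_union_of_disjoint h2, hz]
  congr 1
  split_ifs with h
  · rw [Finset.singleton_inter_of_mem h, card_singleton]
  · rw [Finset.singleton_inter_of_notMem h, card_empty]

theorem Sys.key {a b : ι → Finset κ} (h : Sys a b) {u v : ι} (huv : u ≠ v) {z w : κ}
    (hz : a u \ a v = {z}) (hw : a v \ a u = {w}) :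
    dual b z \ dual b w = {v} ∧ dual b w \ dual b z = {u} := by
  have key : ∀ j, (if u = j then 0 else 1) + (if w ∈ b j then 1 else 0)
      = (if v = j then 0 else 1) + (if z ∈ b j then 1 else 0) := by
    intro j
    have h1 := split_card hz (b j)
    have h2 := split_card hw (b j)
    rw [inter_comm (a v) (a u)] at h2
    rw [h.K2' u j] at h1
    rw [h.K2' v j] at h2
    omega
  constructor
  · ext j
    simp only [mem_sdiff, mem_dual, mem_singleton]
    have hj := key j
    constructor
    · rintro ⟨h1, h2⟩
      simp only [h1, h2, if_true, if_false] at hj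
      by_contra h3
      rw [if_neg (Ne.symm h3)] at hj
      split_ifs at hj
      all_goals omega
    · intro h1
      subst h1
      simp only [huv, if_true, if_false] at hj
      constructor
      · by_contra h2
        simp only [h2, if_false] at hj
        omega
      · intro h2
        simp only [h2, if_true] at hj
        split_ifs at hj
        all_goals omega
  · ext j
    simp only [mem_sdiff, mem_dual, mem_singleton]
    have hj := key j
    constructor
    · rintro ⟨h1, h2⟩
      simp only [h1, h2, if_true, if_false] at hj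
      by_contra h3
      rw [if_neg (Ne.symm h3)] at hj
      split_ifs at hj
      all_goals omega
    · intro h1
      subst h1
      simp only [huv.symm, if_true, if_false] at hj
      constructor
      · by_contra h2
        simp only [h2, if_false] at hj
        omega
      · intro h2
        simp only [h2, if_true] at hj
        split_ifs at hj
        all_goals omega

theorem Sys.L1 {a b : ι → Finset κ} (h : Sys a b) : dbl a ≤ dbl (dual b) := by
  unfold dbl
  apply Finset.card_le_card_of_forall_subsingleton
    (fun (x : ι × ι) (y : κ × κ) => dual b y.1 \ dual b y.2 = {x.2} ∧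
      dual b y.2 \ dual b y.1 = {x.1})
  · rintro ⟨u, v⟩ hx
    simp only [mem_filter, mem_univ, true_and] at hx
    obtain ⟨huv, hc⟩ := hx
    have h1 : (a u \ a v).card = 1 := by
      have := card_sdiff_add_card_inter (a u) (a v)
      rw [hc, h.ca] at this
      omega
    have h2 : (a v \ a u).card = 1 := by
      have := card_sdiff_add_card_inter (a v) (a u)
      rw [inter_comm, hc, h.ca] at this
      omega
    obtain ⟨z, hz⟩ := card_eq_one.mp h1
    obtain ⟨w, hw⟩ := card_eq_one.mp h2
    obtain ⟨k1, k2⟩ := h.key huv hz hw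
    refine ⟨(z, w), ?_, k1, k2⟩
    simp only [mem_filter, mem_univ, true_and]
    constructor
    · rintro rfl
      simp at k1
    · have := card_sdiff_add_card_inter (dual b z) (dual b w)
      rw [k1, h.db, card_singleton] at this
      omega
  · rintro ⟨z, w⟩ hy ⟨u, v⟩ hx ⟨u', v'⟩ hx'
    simp only [Set.mem_ofPred_eq] at hx hx'
    obtain ⟨_, k1, k2⟩ := hx
    obtain ⟨_, k1', k2'⟩ := hx'
    rw [k1] at k1'
    rw [k2] at k2'
    have e1 := singleton_injective k1'
    have e2 := singleton_injective k2'
    rw [Prod.mk.injEq]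
    exact ⟨e2, e1⟩

theorem offDiag_le_two {α : Type} [DecidableEq α] {s : Finset α} (h : s.card ≤ 2) :
    s.offDiag.card = 2 * if s.card = 2 then 1 else 0 := by
  rw [offDiag_card]
  interval_cases s.card <;> simp

theorem dbl_eq_sum (a : ι → Finset κ) (h : ∀ x y, x ≠ y → (a x ∩ a y).card ≤ 2) :
    2 * dbl a = ∑ x ∈ (univ : Finset ι).offDiag, (a x.1 ∩ a x.2).offDiag.card := by
  have h1 : ∀ x ∈ (univ : Finset ι).offDiag, (a x.1 ∩ a x.2).offDiag.card
      = 2 * if (a x.1 ∩ a x.2).card = 2 then 1 else 0 := by
    intro x hx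
    rw [mem_offDiag] at hx
    exact offDiag_le_two (h _ _ hx.2.2)
  rw [sum_congr rfl h1, ← mul_sum]
  congr 1
  rw [← card_filter]
  unfold dbl
  congr 1
  ext x
  simp [mem_offDiag]

theorem Sys.L2 {a b : ι → Finset κ} (h : Sys a b) : dbl (dual b) = dbl b := by
  have h1 := dbl_eq_sum b (fun x y hxy => h.inter_le hxy)
  have h2 := dbl_eq_sum (dual b) (fun x y hxy => h.dual_inter_le hxy)
  have h3 : ∑ x ∈ (univ : Finset ι).offDiag, (b x.1 ∩ b x.2).offDiag.card
      = ∑ z ∈ (univ : Finset κ).offDiag, (dual b z.1 ∩ dual b z.2).offDiag.card := by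
    have := Finset.sum_card_bipartiteAbove_eq_sum_card_bipartiteBelow
      (s := (univ : Finset ι).offDiag) (t := (univ : Finset κ).offDiag)
      (fun (x : ι × ι) (z : κ × κ) => (z.1 ∈ b x.1 ∧ z.1 ∈ b x.2) ∧ (z.2 ∈ b x.1 ∧ z.2 ∈ b x.2))
    convert this using 3 with x hx z hz
    · ext y
      simp only [mem_offDiag, mem_inter, bipartiteAbove, mem_filter, mem_univ, true_and, ne_eq]
      tauto
    · ext y
      simp only [mem_offDiag, mem_inter, bipartiteBelow, mem_filter, mem_univ, true_and, mem_dual,
        ne_eq]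
      tauto
  omega

theorem sum_inter {a : ι → Finset κ} (ha : ∀ i, (a i).card = 3) (hd : ∀ z, (dual a z).card = 3)
    (u : ι) : ∑ v ∈ univ.erase u, (a u ∩ a v).card = 6 := by
  have h1 : ∑ v, (a u ∩ a v).card = 9 := by
    have : ∀ v, (a u ∩ a v).card = ∑ z ∈ a u, if z ∈ a v then 1 else 0 := by
      intro v
      rw [← card_filter]
      congr 1
    rw [sum_congr rfl (fun v _ => this v), sum_comm]
    have h2 : ∀ z ∈ a u, (∑ v, if z ∈ a v then 1 else 0) = 3 := by
      intro z _
      rw [← card_filter]
      exact hd z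
    rw [sum_congr rfl h2, sum_const, ha]
    rfl
  have h2 := sum_erase_add (s := univ) (f := fun v => (a u ∩ a v).card) (mem_univ u)
  simp only [inter_self] at h2
  rw [ha, h1] at h2
  omega

theorem Sys.L3 {a b : ι → Finset κ} (h : Sys a b) (hι : Fintype.card ι = 10)
    (hx : ∀ i j, i ≠ j → Xor ((a i ∩ a j).Nonempty) ((b i ∩ b j).Nonempty)) :
    dbl a + dbl b = 30 := by
  have e : ∀ c : ι → Finset κ, dbl c
      = ∑ u, ∑ v ∈ univ.erase u, if (c u ∩ c v).card = 2 then 1 else 0 := by
    intro c
    unfold dbl
    rw [card_filter, ← univ_product_univ, sum_product]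
    apply sum_congr rfl
    intro u _
    rw [← sum_erase_add (s := univ) (a := u) (h := mem_univ u)]
    simp only [ne_eq, not_true_eq_false, false_and, if_false, add_zero]
    apply sum_congr rfl
    intro v hv
    have : u ≠ v := (ne_of_mem_erase hv).symm
    simp [this]
  rw [e a, e b, ← sum_add_distrib]
  have h3 : ∀ u ∈ (univ : Finset ι), (∑ v ∈ univ.erase u, (if (a u ∩ a v).card = 2 then 1 else 0))
      + (∑ v ∈ univ.erase u, (if (b u ∩ b v).card = 2 then 1 else 0)) = 3 := by
    intro u _
    have s1 := sum_inter h.ca h.da u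
    have s2 := sum_inter h.cb h.db u
    have s3 : ∀ v ∈ univ.erase u, (if (a u ∩ a v).card = 2 then 1 else 0)
        + (if (b u ∩ b v).card = 2 then 1 else 0) + 1 = (a u ∩ a v).card + (b u ∩ b v).card := by
      intro v hv
      have huv : u ≠ v := (ne_of_mem_erase hv).symm
      have l1 := h.inter_le huv
      have l2 := h.symm.inter_le huv
      rcases hx u v huv with ⟨p, q⟩ | ⟨p, q⟩
      · rw [not_nonempty_iff_eq_empty] at q
        have p' := card_pos.mpr p
        rw [q, card_empty, if_neg (show ¬ (0 : ℕ) = 2 by omega)]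
        by_cases hc : (a u ∩ a v).card = 2
        · rw [if_pos hc, hc]
        · rw [if_neg hc]; omega
      · rw [not_nonempty_iff_eq_empty] at q
        have p' := card_pos.mpr p
        rw [q, card_empty, if_neg (show ¬ (0 : ℕ) = 2 by omega)]
        by_cases hc : (b u ∩ b v).card = 2
        · rw [if_pos hc, hc]
        · rw [if_neg hc]; omega
    have s4 := sum_congr rfl s3
    rw [sum_add_distrib, sum_add_distrib, sum_add_distrib, s1, s2, sum_const,
      card_erase_of_mem (mem_univ u), card_univ, hι] at s4
    simp only [smul_eq_mul] at s4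
    omega
  rw [sum_congr rfl h3, sum_const, card_univ, hι]
  rfl

theorem dbl_even (a : ι → Finset κ) : Even (dbl a) := by
  unfold dbl
  set s := (univ : Finset (ι × ι)).filter (fun x => x.1 ≠ x.2 ∧ (a x.1 ∩ a x.2).card = 2) with hs
  have h : ∑ x ∈ s, (1 : ZMod 2) = 0 := by
    apply Finset.sum_involution (fun x _ => (x.2, x.1))
    · intro x hx
      decide
    · intro x hx _ heq
      rw [hs, mem_filter] at hx
      apply hx.2.1
      have := congrArg Prod.fst heq
      simpa using this.symm
    · intro x hx
      rw [hs, mem_filter] at hx ⊢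
      exact ⟨mem_univ _, hx.2.1.symm, by rw [inter_comm]; exact hx.2.2⟩
    · intro x hx
      rfl
  rw [sum_const, nsmul_eq_mul, mul_one] at h
  exact (ZMod.natCast_eq_zero_iff_even).mp h

theorem Sys.false {a b : ι → Finset κ} (h : Sys a b) (hι : Fintype.card ι = 10)
    (hx : ∀ i j, i ≠ j → Xor ((a i ∩ a j).Nonempty) ((b i ∩ b j).Nonempty)) : False := by
  have h1 := h.L1
  rw [h.L2] at h1
  have h2 := h.symm.L1
  rw [h.symm.L2] at h2
  have h3 := h.L3 hι hx
  obtain ⟨k, hk⟩ := dbl_even a
  omega

end Core

end Pool.Agent.R456.Semi
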