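import Pool.Agent.R456.Semi.Core

/-!
Reduction of a semiintersecting family of size 10 with parameters `(6, 20)` to the core system.
-/

set_option autoImplicit false
set_option linter.unusedSectionVars false

namespace Pool.Agent.R456.Semi

open Finset

section Mat
variable {ι κ : Type} [Fintype ι] [DecidableEq ι] [Fintype κ] [DecidableEq κ]

/-- incidence matrix -/
def inc (a : ι → Finset κ) : Matrix ι κ ℚ := Matrix.of fun i z => if z ∈ a i then 1 else 0

theorem K2_dual {a b : ι → Finset κ} (hι : Fintype.card ι = 10) (hκ : Fintype.card κ = 10)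
    (ca : ∀ i, (a i).card = 3) (cb : ∀ i, (b i).card = 3)
    (K2 : ∀ z w, (dual a z ∩ dual b w).card = if z = w then 0 else 1) :
    ∀ i j, (a i ∩ b j).card = if i = j then 0 else 1 := by
  let N : Matrix κ κ ℚ := Matrix.of fun z w => 1 / 9 - if z = w then 1 else 0
  have h0 : ∀ z w, ((inc a).transpose * inc b) z w = 1 - if z = w then 1 else 0 := by
    intro z w
    rw [Matrix.mul_apply]
    have e : ∀ i, (inc a).transpose z i * inc b i w
        = if i ∈ dual a z ∩ dual b w then 1 else 0 := by
      intro i
      simp only [inc, Matrix.transpose_apply, Matrix.of_apply, mem_inter, mem_dual]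
      split_ifs <;> simp_all
    rw [sum_congr rfl (fun i _ => e i), sum_boole]
    have hf : (univ.filter fun i => i ∈ dual a z ∩ dual b w) = dual a z ∩ dual b w := by
      ext i; simp
    rw [hf, K2]
    split_ifs <;> simp
  have h1 : (inc a).transpose * (inc b * N) = 1 := by
    rw [← Matrix.mul_assoc]
    ext z x
    rw [Matrix.mul_apply]
    simp only [h0]
    have e : ∀ w, (1 - if z = w then (1:ℚ) else 0) * N w x
        = 1 / 9 - (if w = x then 1 else 0) - (if z = w then 1 / 9 else 0)
          + (if w = x then (if z = w then 1 else 0) else 0) := by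
      intro w
      simp only [N, Matrix.of_apply]
      split_ifs <;> norm_num
    rw [sum_congr rfl (fun w _ => e w), sum_add_distrib, sum_sub_distrib, sum_sub_distrib,
      sum_const, card_univ, hκ, sum_ite_eq' univ x, sum_ite_eq univ z, sum_ite_eq' univ x]
    simp only [mem_univ, if_true, Matrix.one_apply]
    norm_num
  have h2 : (inc b * N) * (inc a).transpose = 1 :=
    (Matrix.mul_eq_one_comm_of_card_eq κ ι ℚ (by rw [hκ, hι])).mp h1
  have h3 : ∀ j w, (inc b * N) j w = 1 / 3 - if w ∈ b j then 1 else 0 := by
    intro j w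
    rw [Matrix.mul_apply]
    have e : ∀ z, inc b j z * N z w
        = (if z ∈ b j then 1 / 9 else 0) - (if z = w then (if z ∈ b j then 1 else 0) else 0) := by
      intro z
      simp only [N, inc, Matrix.of_apply]
      split_ifs <;> norm_num
    rw [sum_congr rfl (fun z _ => e z), sum_sub_distrib, sum_ite_eq' univ w, sum_ite_mem,
      univ_inter, sum_const, cb]
    simp only [mem_univ, if_true]
    norm_num
  intro i j
  have h4 := congrFun (congrFun h2 j) i
  rw [Matrix.mul_apply] at h4
  have e : ∀ w, (inc b * N) j w * (inc a).transpose w i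
      = (if w ∈ a i then 1 / 3 else 0) - (if w ∈ a i ∩ b j then 1 else 0) := by
    intro w
    rw [h3]
    simp only [inc, Matrix.transpose_apply, Matrix.of_apply, mem_inter]
    split_ifs <;> simp_all
  rw [sum_congr rfl (fun w _ => e w), sum_sub_distrib, sum_ite_mem, sum_ite_mem,
    univ_inter, univ_inter, sum_const, sum_const, ca, Matrix.one_apply] at h4
  have h5 : ((a i ∩ b j).card : ℚ) = 1 - if j = i then 1 else 0 := by
    simp only [nsmul_eq_mul, mul_one] at h4
    rw [← h4]
    norm_num
  split_ifs with hij
  · rw [if_pos hij.symm] at h5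
    have : ((a i ∩ b j).card : ℚ) = 0 := by rw [h5]; norm_num
    exact_mod_cast this
  · rw [if_neg (fun h => hij h.symm)] at h5
    have : ((a i ∩ b j).card : ℚ) = 1 := by rw [h5]; norm_num
    exact_mod_cast this

end Mat

section Twenty
variable {ι P Q : Type} [Fintype ι] [DecidableEq ι] [Fintype P] [DecidableEq P] [Fintype Q]
  [DecidableEq Q]

/-- ten members with parameters `(6, 20)` -/
structure Good (A : ι → Finset P) (B : ι → Finset Q) : Prop where
  cι : Fintype.card ι = 10
  cP : Fintype.card P = 20
  cQ : Fintype.card Q = 20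
  hA : ∀ i, (A i).card = 6
  hB : ∀ i, (B i).card = 6
  hx : ∀ i j, i ≠ j → Xor ((A i ∩ A j).Nonempty) ((B i ∩ B j).Nonempty)

theorem Good.symm {A : ι → Finset P} {B : ι → Finset Q} (h : Good A B) : Good B A where
  cι := h.cι
  cP := h.cQ
  cQ := h.cP
  hA := h.hB
  hB := h.hA
  hx i j hij := (h.hx i j hij).symm

/-- the points `q` not covered by the members through `p` -/
def miss (A : ι → Finset P) (B : ι → Finset Q) (p : P) : Finset Q :=
  univ.filter (fun q => ∀ i, p ∈ A i → q ∉ B i)

theorem mem_miss (A : ι → Finset P) (B : ι → Finset Q) (p : P) (q : Q) :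
    q ∈ miss A B p ↔ ∀ i, p ∈ A i → q ∉ B i := by simp [miss]

theorem mem_miss_symm (A : ι → Finset P) (B : ι → Finset Q) (p : P) (q : Q) :
    q ∈ miss A B p ↔ p ∈ miss B A q := by
  rw [mem_miss, mem_miss]
  constructor
  · intro h i h1 h2
    exact h i h2 h1
  · intro h i h1 h2
    exact h i h2 h1

variable {A : ι → Finset P} {B : ι → Finset Q}

theorem Good.dis (h : Good A B) {i j : ι} (hij : i ≠ j) {p : P} (hi : p ∈ A i) (hj : p ∈ A j) :
    Disjoint (B i) (B j) := by
  rcases h.hx i j hij with ⟨_, q⟩ | ⟨_, q⟩
  · rw [not_nonempty_iff_eq_empty] at q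
    rw [disjoint_iff_inter_eq_empty]
    exact q
  · exact absurd ⟨p, mem_inter.mpr ⟨hi, hj⟩⟩ q

theorem Good.pd (h : Good A B) (p : P) :
    ((dual A p : Finset ι) : Set ι).PairwiseDisjoint B := by
  intro i hi j hj hij
  simp only [mem_coe, mem_dual] at hi hj
  exact h.dis hij hi hj

theorem Good.card_cover (h : Good A B) (p : P) :
    ((dual A p).biUnion B).card = 6 * (dual A p).card := by
  rw [card_biUnion (fun i hi j hj hij => h.pd p hi hj hij), sum_congr rfl (fun i _ => h.hB i),
    sum_const, smul_eq_mul, mul_comm]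

theorem Good.card_dual_le (h : Good A B) (p : P) : (dual A p).card ≤ 3 := by
  have h1 := h.card_cover p
  have h2 := card_le_univ ((dual A p).biUnion B)
  rw [h.cQ] at h2
  omega

theorem Good.card_dual (h : Good A B) (p : P) : (dual A p).card = 3 := by
  have h1 : ∑ p, (dual A p).card = ∑ p : P, 3 := by
    have e := Finset.sum_card_bipartiteAbove_eq_sum_card_bipartiteBelow
      (s := (univ : Finset ι)) (t := (univ : Finset P)) (fun i p => p ∈ A i)
    have e1 : ∀ i ∈ (univ : Finset ι), (bipartiteAbove (fun i p => p ∈ A i) univ i).card = 6 := by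
      intro i _
      rw [← h.hA i]
      congr 1
      ext p
      simp [bipartiteAbove]
    rw [sum_congr rfl e1, sum_const, card_univ, h.cι] at e
    rw [sum_const, card_univ, h.cP]
    simp only [smul_eq_mul] at e ⊢
    rw [show 20 * 3 = 10 * 6 by norm_num, e]
    rfl
  have h2 := (Finset.sum_eq_sum_iff_of_le (fun p _ => h.card_dual_le p)).mp h1
  exact h2 p (mem_univ p)

theorem miss_eq (p : P) : miss A B p = univ \ (dual A p).biUnion B := by
  ext q
  simp only [mem_miss, mem_sdiff, mem_univ, true_and, mem_biUnion, mem_dual]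
  push Not
  rfl

theorem Good.card_miss (h : Good A B) (p : P) : (miss A B p).card = 2 := by
  have h1 := h.card_cover p
  rw [h.card_dual] at h1
  rw [miss_eq, card_sdiff_of_subset (subset_univ _), card_univ, h.cQ, h1]

/-- the linear map of sums over members -/
def L (B : ι → Finset Q) : (Q → ℚ) →ₗ[ℚ] (ι → ℚ) where
  toFun c i := ∑ q ∈ B i, c q
  map_add' c d := by
    funext i
    simp [sum_add_distrib]
  map_smul' r c := by
    funext i
    simp [mul_sum]

theorem Good.split (h : Good A B) (p : P) (c : Q → ℚ) :
    ∑ q, c q = ∑ i ∈ dual A p, L B c i + ∑ q ∈ miss A B p, c q := by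
  have h1 : ∑ i ∈ dual A p, L B c i = ∑ q ∈ (dual A p).biUnion B, c q := by
    rw [sum_biUnion (h.pd p)]
    rfl
  rw [h1, miss_eq, add_comm, sum_sdiff (subset_univ _)]

theorem Good.ker (h : Good A B) {c : Q → ℚ} (hc : L B c = 0) (p : P) :
    ∑ q ∈ miss A B p, c q = 0 := by
  have h1 : ∀ p, ∑ q ∈ miss A B p, c q = ∑ q, c q := by
    intro p
    have := h.split p c
    rw [hc] at this
    simp only [Pi.zero_apply, sum_const_zero, zero_add] at this
    exact this.symm
  have h2 : ∑ p : P, ∑ q ∈ miss A B p, c q = 2 * ∑ q, c q := by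
    have e : ∀ p : P, ∑ q ∈ miss A B p, c q = ∑ q, if q ∈ miss A B p then c q else 0 := by
      intro p
      rw [sum_ite_mem, univ_inter]
    rw [sum_congr rfl (fun p _ => e p), sum_comm, mul_sum]
    apply sum_congr rfl
    intro q _
    have e2 : ∀ p : P, (if q ∈ miss A B p then c q else 0)
        = if p ∈ miss B A q then c q else 0 := by
      intro p
      simp only [mem_miss_symm A B p q]
    rw [sum_congr rfl (fun p _ => e2 p), sum_ite_mem, univ_inter, sum_const, h.symm.card_miss]
    simp
  rw [sum_congr rfl (fun p _ => h1 p), sum_const, card_univ, h.cP] at h2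
  rw [h1]
  simp only [nsmul_eq_mul] at h2
  push_cast at h2
  linarith

theorem Good.same (h : Good A B) (hs : Function.Surjective (L B)) {p p' : P}
    (hm : miss A B p = miss A B p') (i : ι) : p ∈ A i ↔ p' ∈ A i := by
  obtain ⟨c, hc⟩ := hs (Pi.single i 1)
  have h1 := h.split p c
  have h2 := h.split p' c
  rw [hc] at h1 h2
  rw [hm] at h1
  have e : ∀ p : P, ∑ j ∈ dual A p, (Pi.single i (1:ℚ) : ι → ℚ) j = if p ∈ A i then 1 else 0 := by
    intro p
    simp only [Pi.single_apply]
    rw [sum_ite_eq']
    simp only [mem_dual]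
  rw [e] at h1 h2
  have h3 : (if p ∈ A i then (1:ℚ) else 0) = if p' ∈ A i then 1 else 0 := by linarith
  by_cases a1 : p ∈ A i <;> by_cases a2 : p' ∈ A i <;> simp_all

theorem Good.struct (h : Good A B) : ∃ (κ : Type) (_ : Fintype κ) (_ : DecidableEq κ)
    (f : P → κ) (g : Q → κ), Fintype.card κ = 10 ∧ (∀ p q, q ∈ miss A B p ↔ g q = f p) ∧
    (∀ z, (univ.filter (fun q => g q = z)).card = 2) ∧ Function.Surjective (L B) := by
  classical
  let r : Q → Q → Prop := fun q q' => ∃ p, q ∈ miss A B p ∧ q' ∈ miss A B p
  let s : Setoid Q := Relation.EqvGen.setoid r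
  let κ := Quotient s
  let g : Q → κ := fun q => Quotient.mk s q
  have hg : ∀ p q q', q ∈ miss A B p → q' ∈ miss A B p → g q = g q' := by
    intro p q q' h1 h2
    exact Quotient.sound (Relation.EqvGen.rel q q' ⟨p, h1, h2⟩)
  have hsub : ∀ p q, q ∈ miss A B p → miss A B p ⊆ univ.filter (fun q' => g q' = g q) := by
    intro p q hq q' hq'
    rw [mem_filter]
    exact ⟨mem_univ _, hg p q' q hq' hq⟩
  have hex : ∀ q, ∃ p, q ∈ miss A B p := by
    intro q
    have := h.symm.card_miss q
    obtain ⟨p, hp⟩ := card_pos.mp (by rw [this]; norm_num : 0 < (miss B A q).card)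
    exact ⟨p, (mem_miss_symm A B p q).mpr hp⟩
  have hfib : ∀ z : κ, 2 ≤ (univ.filter (fun q' => g q' = z)).card := by
    intro z
    obtain ⟨q, rfl⟩ := Quotient.exists_rep z
    obtain ⟨p, hp⟩ := hex q
    rw [← h.card_miss p]
    exact card_le_card (hsub p q hp)
  have hsum : ∑ z : κ, (univ.filter (fun q' => g q' = z)).card = 20 := by
    rw [← card_eq_sum_card_fiberwise (f := g) (s := univ) (t := univ) (fun _ _ => mem_univ _),
      card_univ, h.cQ]
  have hle : Fintype.card κ ≤ 10 := by
    have : ∑ z : κ, 2 ≤ ∑ z : κ, (univ.filter (fun q' => g q' = z)).card :=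
      sum_le_sum (fun z _ => hfib z)
    rw [hsum, sum_const, card_univ, smul_eq_mul] at this
    omega
  -- the kernel
  have hinj : ∀ c : Q → ℚ, L B c = 0 → (∀ z : κ, c z.out = 0) → c = 0 := by
    intro c hc hz
    have h1 : ∀ q q', s q q' → (c q = 0 ↔ c q' = 0) := by
      intro q q' hqq
      induction hqq with
      | rel x y hxy =>
        obtain ⟨p, hx, hy⟩ := hxy
        by_cases hne : x = y
        · rw [hne]
        · have h2 := h.ker hc p
          have h3 : miss A B p = {x, y} := by
            symm
            apply eq_of_subset_of_card_le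
            · intro w hw
              simp only [mem_insert, mem_singleton] at hw
              rcases hw with rfl | rfl
              · exact hx
              · exact hy
            · rw [h.card_miss, card_pair hne]
          rw [h3, sum_pair hne] at h2
          constructor
          · intro h4; rw [h4] at h2; linarith
          · intro h4; rw [h4] at h2; linarith
      | refl x => rfl
      | symm x y _ ih => exact ih.symm
      | trans x y z _ _ ih1 ih2 => exact ih1.trans ih2
    funext q
    have h2 : s (Quotient.out (g q)) q := Quotient.mk_out q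
    exact (h1 _ _ h2).mp (hz (g q))
  have hker : Module.finrank ℚ (LinearMap.ker (L B)) ≤ Fintype.card κ := by
    let E : LinearMap.ker (L B) →ₗ[ℚ] (κ → ℚ) :=
      (LinearMap.funLeft ℚ ℚ (Quotient.out : κ → Q)).comp (LinearMap.ker (L B)).subtype
    have hE : Function.Injective E := by
      rw [← LinearMap.ker_eq_bot, LinearMap.ker_eq_bot']
      rintro ⟨c, hc⟩ h0
      rw [LinearMap.mem_ker] at hc
      have : c = 0 := by
        apply hinj c hc
        intro z
        exact congrFun h0 z
      simp [this]
    have := LinearMap.finrank_le_finrank_of_injective hE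
    rwa [Module.finrank_fintype_fun_eq_card] at this
  have hrn := LinearMap.finrank_range_add_finrank_ker (L B)
  rw [Module.finrank_fintype_fun_eq_card, h.cQ] at hrn
  have hr : Module.finrank ℚ (LinearMap.range (L B)) ≤ 10 := by
    have := Submodule.finrank_le (LinearMap.range (L B))
    rwa [Module.finrank_fintype_fun_eq_card, h.cι] at this
  have hκ : Fintype.card κ = 10 := by omega
  have hr' : Module.finrank ℚ (LinearMap.range (L B)) = 10 := by omega
  have hsurj : Function.Surjective (L B) := by
    rw [← LinearMap.range_eq_top]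
    apply Submodule.eq_top_of_finrank_eq
    rw [hr', Module.finrank_fintype_fun_eq_card, h.cι]
  have hfib2 : ∀ z : κ, (univ.filter (fun q' => g q' = z)).card = 2 := by
    have e : ∑ z : κ, 2 = ∑ z : κ, (univ.filter (fun q' => g q' = z)).card := by
      rw [hsum, sum_const, card_univ, hκ, smul_eq_mul]
    have := (Finset.sum_eq_sum_iff_of_le (fun z _ => hfib z)).mp e
    intro z
    exact (this z (mem_univ z)).symm
  have hpick : ∀ p, ∃ q, q ∈ miss A B p := by
    intro p
    have := h.card_miss p
    exact card_pos.mp (by rw [this]; norm_num)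
  choose k hk using hpick
  refine ⟨κ, inferInstance, inferInstance, fun p => g (k p), g, hκ, ?_, hfib2, hsurj⟩
  intro p q
  have e : miss A B p = univ.filter (fun q' => g q' = g (k p)) := by
    apply eq_of_subset_of_card_le (hsub p (k p) (hk p))
    rw [hfib2, h.card_miss]
  rw [e, mem_filter]
  simp

theorem Good.card_both (h : Good A B) (p : P) (q : Q) :
    (dual A p ∩ dual B q).card = if q ∈ miss A B p then 0 else 1 := by
  split_ifs with hq
  · rw [card_eq_zero, eq_empty_iff_forall_notMem]
    intro i hi
    rw [mem_inter, mem_dual, mem_dual] at hi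
    rw [mem_miss] at hq
    exact hq i hi.1 hi.2
  · apply le_antisymm
    · rw [card_le_one]
      intro i hi j hj
      rw [mem_inter, mem_dual, mem_dual] at hi hj
      by_contra hij
      have := h.dis hij hi.1 hj.1
      exact (Finset.disjoint_left.mp this) hi.2 hj.2
    · rw [Nat.one_le_iff_ne_zero, ← Nat.pos_iff_ne_zero, card_pos]
      rw [mem_miss] at hq
      push Not at hq
      obtain ⟨i, h1, h2⟩ := hq
      exact ⟨i, by rw [mem_inter, mem_dual, mem_dual]; exact ⟨h1, h2⟩⟩

theorem Good.false (h : Good A B) : False := by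
  obtain ⟨κ, i1, i2, f, g, hκ, hm, hfib, hsB⟩ := h.struct
  obtain ⟨_, _, _, _, _, _, _, _, hsA⟩ := h.symm.struct
  -- surjectivity of g and f
  have gs : ∀ z, ∃ q, g q = z := by
    intro z
    obtain ⟨q, hq⟩ := card_pos.mp (by rw [hfib z]; norm_num :
      0 < (univ.filter (fun q => g q = z)).card)
    exact ⟨q, (mem_filter.mp hq).2⟩
  have ffib : ∀ z, (univ.filter (fun p => f p = z)).card = 2 := by
    intro z
    obtain ⟨q, rfl⟩ := gs z
    rw [← h.symm.card_miss q]
    congr 1
    ext p
    rw [mem_filter, ← mem_miss_symm A B p q, hm p q]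
    simp [eq_comm]
  have fs : ∀ z, ∃ p, f p = z := by
    intro z
    obtain ⟨q, hq⟩ := card_pos.mp (by rw [ffib z]; norm_num :
      0 < (univ.filter (fun p => f p = z)).card)
    exact ⟨q, (mem_filter.mp hq).2⟩
  have sameA : ∀ p p', f p = f p' → ∀ i, p ∈ A i ↔ p' ∈ A i := by
    intro p p' hp
    apply h.same hsB
    ext q
    rw [hm, hm, hp]
  have sameB : ∀ q q', g q = g q' → ∀ i, q ∈ B i ↔ q' ∈ B i := by
    intro q q' hq
    apply h.symm.same hsA
    ext p
    rw [← mem_miss_symm A B p q, ← mem_miss_symm A B p q', hm, hm, hq]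
  let a : ι → Finset κ := fun i => (A i).image f
  let b : ι → Finset κ := fun i => (B i).image g
  have ma : ∀ p i, f p ∈ a i ↔ p ∈ A i := by
    intro p i
    simp only [a, mem_image]
    constructor
    · rintro ⟨p', h1, h2⟩
      exact (sameA p' p h2 i).mp h1
    · intro h1
      exact ⟨p, h1, rfl⟩
  have mb : ∀ q i, g q ∈ b i ↔ q ∈ B i := by
    intro q i
    simp only [b, mem_image]
    constructor
    · rintro ⟨q', h1, h2⟩
      exact (sameB q' q h2 i).mp h1
    · intro h1
      exact ⟨q, h1, rfl⟩
  have ca : ∀ i, (a i).card = 3 := by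
    intro i
    have h1 := card_eq_sum_card_image f (A i)
    have h2 : ∀ z ∈ (A i).image f, ((A i).filter (fun p => f p = z)).card = 2 := by
      intro z hz
      rw [← ffib z]
      congr 1
      ext p
      simp only [mem_filter, mem_univ, true_and, and_iff_right_iff_imp]
      rintro rfl
      exact (ma p i).mp hz
    rw [sum_congr rfl h2, sum_const, h.hA] at h1
    simp only [smul_eq_mul] at h1
    change ((A i).image f).card = 3
    omega
  have cb : ∀ i, (b i).card = 3 := by
    intro i
    have h1 := card_eq_sum_card_image g (B i)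
    have h2 : ∀ z ∈ (B i).image g, ((B i).filter (fun p => g p = z)).card = 2 := by
      intro z hz
      rw [← hfib z]
      congr 1
      ext p
      simp only [mem_filter, mem_univ, true_and, and_iff_right_iff_imp]
      rintro rfl
      exact (mb p i).mp hz
    rw [sum_congr rfl h2, sum_const, h.hB] at h1
    simp only [smul_eq_mul] at h1
    change ((B i).image g).card = 3
    omega
  have dA : ∀ p, dual a (f p) = dual A p := by
    intro p
    ext i
    rw [mem_dual, mem_dual, ma]
  have dB : ∀ q, dual b (g q) = dual B q := by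
    intro q
    ext i
    rw [mem_dual, mem_dual, mb]
  have K2 : ∀ z w, (dual a z ∩ dual b w).card = if z = w then 0 else 1 := by
    intro z w
    obtain ⟨p, rfl⟩ := fs z
    obtain ⟨q, rfl⟩ := gs w
    rw [dA, dB, h.card_both]
    simp only [hm, eq_comm]
  have hS : Sys a b :=
    { ca := ca
      cb := cb
      da := by
        intro z
        obtain ⟨p, rfl⟩ := fs z
        rw [dA, h.card_dual]
      db := by
        intro z
        obtain ⟨q, rfl⟩ := gs z
        rw [dB, h.symm.card_dual]
      K2 := K2
      K2' := K2_dual h.cι hκ ca cb K2 }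
  apply hS.false h.cι
  intro i j hij
  have e1 : (a i ∩ a j).Nonempty ↔ (A i ∩ A j).Nonempty := by
    constructor
    · rintro ⟨z, hz⟩
      obtain ⟨p, rfl⟩ := fs z
      rw [mem_inter, ma, ma] at hz
      exact ⟨p, mem_inter.mpr hz⟩
    · rintro ⟨p, hp⟩
      rw [mem_inter, ← ma, ← ma] at hp
      exact ⟨f p, mem_inter.mpr hp⟩
  have e2 : (b i ∩ b j).Nonempty ↔ (B i ∩ B j).Nonempty := by
    constructor
    · rintro ⟨z, hz⟩
      obtain ⟨p, rfl⟩ := gs z
      rw [mem_inter, mb, mb] at hz
      exact ⟨p, mem_inter.mpr hz⟩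
    · rintro ⟨p, hp⟩
      rw [mem_inter, ← mb, ← mb] at hp
      exact ⟨g p, mem_inter.mpr hp⟩
  rw [e1, e2]
  exact h.hx i j hij

end Twenty

end Pool.Agent.R456.Semi
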